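import Mathlib

/-!
# The Konane position `S(3, 4·, 6)` does not decompose

Konane on a row of cells indexed by the integers. The value of `S(3, 4·, 6)` differs from the sum of
the values of its first two runs and of its third run: White (Right) wins the difference moving
first. A winning strategy (a set of `194` positions of the difference in which Black is to move) is
checked by the kernel.
-/

namespace Pool.Agent.Results.MP_914aa3_co.ThreeFourSix

/-- A ruleset: positions, the moves of Left and the moves of Right. -/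
structure Ruleset where
  /-- The positions. -/
  Pos : Type
  /-- The moves of Left. -/
  left : Pos → Pos → Prop
  /-- The moves of Right. -/
  right : Pos → Pos → Prop

/-- The moves of Left (`true`) or of Right (`false`). -/
def Ruleset.move (A : Ruleset) (b : Bool) (x y : A.Pos) : Prop :=
  if b then A.left x y else A.right x y

/-- The ruleset with the roles of Left and Right exchanged. -/
def Ruleset.neg (A : Ruleset) : Ruleset where
  Pos := A.Pos
  left := A.right
  right := A.left

/-- The disjunctive sum: a move is a move in exactly one component. -/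
def Ruleset.add (A B : Ruleset) : Ruleset where
  Pos := A.Pos × B.Pos
  left x y := (A.left x.1 y.1 ∧ x.2 = y.2) ∨ (x.1 = y.1 ∧ B.left x.2 y.2)
  right x y := (A.right x.1 y.1 ∧ x.2 = y.2) ∨ (x.1 = y.1 ∧ B.right x.2 y.2)

/-- Under normal play the player `b` (`true` for Left) loses when he is to move at `x`: to every
move `y` of `b` the other player has a reply `f y` at which `b` loses again. -/
inductive Loses (A : Ruleset) (b : Bool) : A.Pos → Prop
  | intro (x : A.Pos) (f : ∀ y, A.move b x y → A.Pos)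
      (hf : ∀ y h, A.move (!b) y (f y h)) (hl : ∀ y h, Loses A b (f y h)) : Loses A b x

/-- The positions `x` of `A` and `y` of `B` have the same value: the difference `x - y` is a win
for the second player. -/
def SameValue (A : Ruleset) (x : A.Pos) (B : Ruleset) (y : B.Pos) : Prop :=
  Loses (A.add B.neg) true (x, y) ∧ Loses (A.add B.neg) false (x, y)

/-- In the position `x` (`x c = true` if the cell `c` is occupied) the stone in cell `p` jumps over
the stone in cell `p + d` into the empty cell `p + 2 * d`; the jumped stone is removed. -/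
def Jump (d p : ℤ) (x y : ℤ → Bool) : Prop :=
  x p = true ∧ x (p + d) = true ∧ x (p + 2 * d) = false ∧
    y = Function.update (Function.update (Function.update x p false) (p + d) false)
      (p + 2 * d) true

/-- The stone in cell `p` makes one or more jumps in the direction `d`. -/
inductive Jumps (d : ℤ) : ℤ → (ℤ → Bool) → (ℤ → Bool) → Prop
  | one (p : ℤ) (x y : ℤ → Bool) (h : Jump d p x y) : Jumps d p x y
  | more (p : ℤ) (x y z : ℤ → Bool) (h : Jump d p x y) (h' : Jumps d (p + 2 * d) y z) :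
      Jumps d p x z

/-- Konane on a row of cells: Left (Black) moves the stones in even cells, Right (White) the stones
in odd cells. -/
def konane : Ruleset where
  Pos := ℤ → Bool
  left x y := ∃ p d : ℤ, Even p ∧ (d = 1 ∨ d = -1) ∧ Jumps d p x y
  right x y := ∃ p d : ℤ, Odd p ∧ (d = 1 ∨ d = -1) ∧ Jumps d p x y

/-- The first two runs of `S(k, m·, n)`: `k` stones, one empty cell, `m` stones, from cell `1`. -/
def firstRuns (k m : ℕ) : ℤ → Bool := fun c =>
  decide ((1 ≤ c ∧ c ≤ k) ∨ (k + 2 ≤ c ∧ c ≤ k + 1 + m))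

/-- The third run of `S(k, m·, n)`: `n` stones in the cells after two empty cells. -/
def thirdRun (k m n : ℕ) : ℤ → Bool := fun c =>
  decide ((k : ℤ) + 1 + m + 3 ≤ c ∧ c ≤ k + 1 + m + 2 + n)

/-- The position `S(k, m·, n)`. -/
def wholePosition (k m n : ℕ) : ℤ → Bool := fun c => firstRuns k m c || thirdRun k m n c

/-- `S(k, m·, n)` decomposes: its value is the value of the first two runs plus the value of the
third run. -/
def Decomposes (k m n : ℕ) : Prop :=
  SameValue konane (wholePosition k m n) (konane.add konane) (firstRuns k m, thirdRun k m n)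

/-! ### Generalities -/

lemma loses_of {A : Ruleset} {b : Bool} {x : A.Pos}
    (h : ∀ y, A.move b x y → ∃ z, A.move (!b) y z ∧ Loses A b z) : Loses A b x := by
  choose f h1 h2 using h
  exact .intro x f h1 h2

/-- The mover cannot both lose and have a move to a position at which the opponent loses. -/
lemma not_loses {A : Ruleset} {b : Bool} {x : A.Pos} (hx : Loses A b x) :
    ∀ y, A.move b x y → ¬ Loses A (!b) y := by
  induction hx with
  | intro x f hf hl ih =>
    intro y hy hly
    cases hly with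
    | intro _ g hg hgl =>
      have h1 := hf y hy
      have h2 := hg (f y hy) h1
      rw [Bool.not_not] at h2
      exact ih y hy _ h2 (hgl (f y hy) h1)

/-! ### Codes: the cell `c` is bit `c + 2` -/

/-- The position coded by a mask. -/
def pos (m : ℕ) : ℤ → Bool := fun c => decide (0 ≤ c + 2) && m.testBit (c + 2).toNat

/-- All masks reached by jumps to the right of the stone at bit `a`. -/
def chainR : ℕ → ℕ → ℕ → List ℕ
  | 0, _, _ => []
  | fuel + 1, m, a => bif m.testBit a && m.testBit (a + 1) && !(m.testBit (a + 2)) then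
      (m ^^^ (7 <<< a)) :: chainR fuel (m ^^^ (7 <<< a)) (a + 2) else []

/-- All masks reached by jumps to the left of the stone at bit `a`. -/
def chainL : ℕ → ℕ → ℕ → List ℕ
  | 0, _, _ => []
  | fuel + 1, m, a => bif Nat.ble 2 a && m.testBit a && m.testBit (a - 1) &&
        !(m.testBit (a - 2)) then
      (m ^^^ (7 <<< (a - 2))) :: chainL fuel (m ^^^ (7 <<< (a - 2))) (a - 2) else []

/-- Masks reached by moves of stones at bits of parity `par`. -/
def moves (par m : ℕ) : List ℕ :=
  (List.range 20).flatMap fun a => bif Nat.beq (a % 2) par then chainR 10 m a ++ chainL 10 m a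
    else []

/-- All masks reached by jumps to the right of the stone at bit `a` satisfy `P`. -/
def checkR (P : ℕ → Bool) : ℕ → ℕ → ℕ → Bool
  | 0, _, _ => false
  | fuel + 1, m, a => bif m.testBit a && m.testBit (a + 1) && !(m.testBit (a + 2)) then
      P (m ^^^ (7 <<< a)) && checkR P fuel (m ^^^ (7 <<< a)) (a + 2) else true

/-- All masks reached by jumps to the left of the stone at bit `a` satisfy `P`. -/
def checkL (P : ℕ → Bool) : ℕ → ℕ → ℕ → Bool
  | 0, _, _ => false
  | fuel + 1, m, a => bif Nat.ble 2 a then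
      (bif m.testBit a && m.testBit (a - 1) && !(m.testBit (a - 2)) then
        P (m ^^^ (7 <<< (a - 2))) && checkL P fuel (m ^^^ (7 <<< (a - 2))) (a - 2) else true)
    else !(m.testBit 0)

/-- All masks reached by moves of stones at bits of parity `par` satisfy `P`. -/
def checkMoves (P : ℕ → Bool) (par m : ℕ) : Bool :=
  Nat.ble m 1048575 && (List.range 20).all fun a =>
    bif m.testBit a && Nat.beq (a % 2) par then checkR P 11 m a && checkL P 11 m a else true

/-- The strategy: positions of the difference with Left to move; twenty bits for each component,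
then the number of stones. -/
def W : List ℕ :=
  [0x1979000007b87e7b8, 0x1765000007b87e678, 0x1765000007b87e7a4, 0x1785000007b87e7b8,
   0x1765000009b87e7b8, 0x1765000007b87e7c8, 0x1779000007b8997b8, 0x1515000007b879678,
   0x1515000007b8797a4, 0x1515000009b8797b8, 0x1515000007b8797c8, 0x1515000007b87e178,
   0x1515000007b87e664, 0x1515000009b87e678, 0x1515000009b87e7a4, 0x151500000a387e7b8,
   0x1515000009b87e7c8, 0x1565000007b8857b8, 0x1585000007b8997b8, 0x1585000007b89e678,
   0x1585000007b89e7a4, 0x1585000009b89e7b8, 0x1585000007b89e7c8, 0x1579000007b8a1678,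
   0x1579000007b8a17a4, 0x1579000009b8a17b8, 0x1579000007b8a17c8, 0x1415000007b87e614,
   0x1315000007b885678, 0x1315000007b8857a4, 0x1385000007a4857b8, 0x1315000009b8857b8,
   0x1315000007b8857c8, 0x1315000007b899664, 0x1315000009b899678, 0x1315000009b8997a4,
   0x131500000a38997b8, 0x1315000009b8997c8, 0x1315000007b89e614, 0x1315000009b89e664,
   0x131500000a389e678, 0x131500000a389e7a4, 0x131500000a389e7c8, 0x1385000007b8a1678,
   0x1385000007b8a17a4, 0x1385000009b8a17b8, 0x1385000007b8a17c8, 0x1365000009b8a17c8,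
   0x1385000007b8a6664, 0x1385000009b8a6678, 0x1385000009b8a67a4, 0x138500000a38a67b8,
   0x1385000009b8a67c8, 0x1215000007b879218, 0x1215000007b87e204, 0x1215000009b87e218,
   0x1215000007b899614, 0x1215000007b89e114, 0x1285000007b89e218, 0x1215000009b89e614,
   0x1279000007b8a1218, 0x1279000007b8a2064, 0x1279000009b8a2078, 0x1279000009b8a21a4,
   0x127900000a38a21b8, 0x1285000007b8a6614, 0x1185000007a485728, 0x1115000009b885728,
   0x1165000007b888078, 0x1115000009b8a1178, 0x1115000007b8a1614, 0x1115000009b8a1664,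
   0x111500000a38a1678, 0x1185000009b8a1728, 0x111500000a38a17a4, 0x111500000a38a17c8,
   0x1179000007b8a2014, 0x1115000007b8a6114, 0x1115000009b8a6614, 0x111500000a38a6664,
   0x1185000009b8a8178, 0x1185000007b8a8614, 0x1185000009b8a8664, 0x118500000a38a8678,
   0x118500000a38a87a4, 0x118500000a38a87c8, 0x1015000009b879220, 0x1015000007b885218,
   0x108500000614857a4, 0x108500000814857b8, 0x1015000007b899204, 0x1015000009b89e204,
   0x101500000a389e218, 0x1085000009b89e220, 0x1015000007b8a1114, 0x1079000007a4a1204,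
   0x1085000007b8a1218, 0x1079000009b8a1220, 0x1015000009b8a1614, 0x1079000007a4a2014,
   0x1085000007b8a2064, 0x1085000009b8a2078, 0x1079000009b8a2084, 0x107900000a38a2098,
   0x107900000a38a2128, 0x1085000009b8a21a4, 0x108500000a38a21b8, 0x107900000a38a2224,
   0x1015000009b8a6114, 0x1085000007b8a6204, 0x101500000a38a6614, 0x1085000007b8a8114,
   0x1085000009b8a8614, 0xf15000007b888064, 0xf85000007a488078, 0xf15000009b888078,
   0xf65000007b888084, 0xf15000009b8881a4, 0xf1500000a38881b8, 0xf15000007a4a1114,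
   0xf85000007b8a2014, 0xf65000009b8a2014, 0xf85000007a4a8114, 0xf15000009b8a8114,
   0xf1500000a38a8614, 0xf85000009b8a8814, 0xf8500000a38a8864, 0xe15000007a485204,
   0xe15000009b885220, 0xe850000081485728, 0xe8500000814859a4, 0xe15000007b888014,
   0xe1500000a3899220, 0xe1500000878a1114, 0xe85000007a4a1204, 0xe15000009b8a1204,
   0xe1500000a38a1218, 0xe85000009b8a1220, 0xe7900000a24a1220, 0xe85000007a4a2014,
   0xe15000009b8a2014, 0xe1500000a38a2064, 0xe85000009b8a2084, 0xe7900000a24a2084,
   0xe8500000a38a2098, 0xe8500000a38a2128, 0xe8500000a38a2224, 0xe1500000a38a6204,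
   0xe8500000a38a6220, 0xe8500000878a8114, 0xe1500000a38a8114, 0xe85000009b8a8204,
   0xe8500000a38a8218, 0xe8500000a38a8814, 0xd850000061485814, 0xd15000007a488014,
   0xd85000007a488084, 0xd15000009b888084, 0xd1500000a3888098, 0xd1500000a3888128,
   0xd1500000a3888224, 0xd7900000814a1204, 0xd7900000814a2014, 0xd8500000878a2014,
   0xd1500000a38a2014, 0xd1500000a24a8114, 0xd8500000a24a8814, 0xc1500000a2485220,
   0xc850000081486064, 0xc150000087888014, 0xc850000061488064, 0xc850000081488078,
   0xc1500000814a1114, 0xc1500000884a1114, 0xc1500000a24a1204, 0xc8500000a24a1220,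
   0xc1500000a24a2014, 0xc8500000a24a2084, 0xc8500000814a8114, 0xc8500000884a8114,
   0xc8500000a24a8204, 0xb850000011484414, 0xb850000081484824, 0xb150000081485204,
   0xb1500000a2488084, 0xb8500000814a1204, 0xb8500000814a2014, 0xb8500000884a2014,
   0xa850000081481084, 0xa850000011488014, 0xa150000081488014, 0xa850000081488014,
   0xa150000088488014, 0xa850000081488084]

/-- The state is in the list, with a smaller number of stones. -/
def good (r m1 m2 m3 : ℕ) : Bool :=
  W.any fun w => Nat.beq (w % 1048576) m1 && Nat.beq ((w / 1048576) % 1048576) m2 &&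
    Nat.beq ((w / 1099511627776) % 1048576) m3 && Nat.ble (w / 1152921504606846976 + 1) r

/-- Right has a reply to a state of the list. -/
def reply (r m1 m2 m3 : ℕ) : Bool :=
  (moves 1 m1).any (fun y => good r y m2 m3) || (moves 0 m2).any (fun y => good r m1 y m3) ||
    (moves 0 m3).any (fun y => good r m1 m2 y)

/-- Right has a reply to each move of Left. -/
def checkState (r m1 m2 m3 : ℕ) : Bool :=
  checkMoves (fun y => reply r y m2 m3) 0 m1 && checkMoves (fun y => reply r m1 y m3) 1 m2 &&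
    checkMoves (fun y => reply r m1 m2 y) 1 m3

theorem check_W : (W.all fun w => checkState (w / 1152921504606846976) (w % 1048576)
    ((w / 1048576) % 1048576) ((w / 1099511627776) % 1048576)) = true := by
  decide +kernel

/-! ### Soundness -/

lemma testBit_seven (i k : ℕ) : (7 <<< i).testBit k = decide (i ≤ k ∧ k ≤ i + 2) := by
  rw [Nat.testBit_shiftLeft]
  rcases lt_or_ge k i with h | h
  · have h1 : ¬ (k ≥ i) := by omega
    have h2 : ¬ (i ≤ k ∧ k ≤ i + 2) := by omega
    simp [h1, h2]
  · obtain ⟨m, rfl⟩ := Nat.exists_eq_add_of_le h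
    rw [Nat.add_sub_cancel_left]
    rcases m with _ | _ | _ | m
    · simp
    · simp [Nat.testBit]
    · simp [Nat.testBit]
    · have h3 : Nat.testBit 7 (m + 3) = false :=
        Nat.testBit_lt_two_pow (lt_of_lt_of_le (by norm_num)
          (Nat.pow_le_pow_right (by norm_num) (by omega : 3 ≤ m + 3)))
      have h2 : ¬ (i ≤ i + (m + 1 + 1 + 1) ∧ i + (m + 1 + 1 + 1) ≤ i + 2) := by omega
      have h4 : m + 1 + 1 + 1 = m + 3 := rfl
      rw [h4] at h2 ⊢
      rw [h3]
      simp

lemma xor_seven (m i k : ℕ) :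
    (m ^^^ (7 <<< i)).testBit k = (m.testBit k ^^ decide (i ≤ k ∧ k ≤ i + 2)) := by
  rw [Nat.testBit_xor, testBit_seven]

lemma pos_at (m a : ℕ) : pos m ((a : ℤ) - 2) = m.testBit a := by
  unfold pos
  have h : ((a : ℤ) - 2 + 2) = a := by ring
  rw [h]
  simp

lemma pos_true {m : ℕ} {c : ℤ} (h : pos m c = true) : ∃ a : ℕ, c = (a : ℤ) - 2 := by
  unfold pos at h
  rw [Bool.and_eq_true, decide_eq_true_eq] at h
  exact ⟨(c + 2).toNat, by omega⟩

lemma flip_eq (m i : ℕ) {u v w : Bool} (hu : u = !(m.testBit i)) (hv : v = !(m.testBit (i + 1)))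
    (hw : w = !(m.testBit (i + 2))) (c : ℤ) :
    pos (m ^^^ (7 <<< i)) c = if c = (i : ℤ) - 2 then u else if c = (i : ℤ) - 1 then v else
      if c = (i : ℤ) then w else pos m c := by
  by_cases h : 0 ≤ c + 2
  · obtain ⟨a, ha⟩ : ∃ a : ℕ, c = (a : ℤ) - 2 := ⟨(c + 2).toNat, by omega⟩
    subst ha
    rw [pos_at, pos_at, xor_seven]
    by_cases h1 : a = i
    · subst h1; simp [hu]
    · have h1' : ¬ ((a : ℤ) - 2 = (i : ℤ) - 2) := by omega
      rw [if_neg h1']
      by_cases h2 : a = i + 1
      · subst h2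
        have h2' : ((i + 1 : ℕ) : ℤ) - 2 = (i : ℤ) - 1 := by push_cast; ring
        rw [if_pos h2', hv]
        simp
      · have h2' : ¬ ((a : ℤ) - 2 = (i : ℤ) - 1) := by omega
        rw [if_neg h2']
        by_cases h3 : a = i + 2
        · subst h3
          have h3' : ((i + 2 : ℕ) : ℤ) - 2 = (i : ℤ) := by push_cast; ring
          rw [if_pos h3', hw]
          simp
        · have h3' : ¬ ((a : ℤ) - 2 = (i : ℤ)) := by omega
          have h4 : ¬ (i ≤ a ∧ a ≤ i + 2) := by omega
          rw [if_neg h3']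
          simp [h4]
  · have h1 : ¬ (c = (i : ℤ) - 2) := by omega
    have h2 : ¬ (c = (i : ℤ) - 1) := by omega
    have h3 : ¬ (c = (i : ℤ)) := by omega
    rw [if_neg h1, if_neg h2, if_neg h3]
    unfold pos
    simp [h]

lemma jumpR {m a : ℕ} (h1 : m.testBit a = true) (h2 : m.testBit (a + 1) = true)
    (h3 : m.testBit (a + 2) = false) :
    Jump 1 ((a : ℤ) - 2) (pos m) (pos (m ^^^ (7 <<< a))) := by
  refine ⟨by rw [pos_at, h1], ?_, ?_, ?_⟩
  · have : (a : ℤ) - 2 + 1 = ((a + 1 : ℕ) : ℤ) - 2 := by push_cast; ring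
    rw [this, pos_at, h2]
  · have : (a : ℤ) - 2 + 2 * 1 = ((a + 2 : ℕ) : ℤ) - 2 := by push_cast; ring
    rw [this, pos_at, h3]
  · funext c
    rw [flip_eq m a (u := false) (v := false) (w := true) (by simp [h1]) (by simp [h2])
      (by simp [h3])]
    have e1 : (a : ℤ) - 2 + 2 * 1 = a := by ring
    have e2 : (a : ℤ) - 2 + 1 = a - 1 := by ring
    rw [e1, e2]
    unfold Function.update
    simp only [eq_rec_constant]
    split_ifs <;> first | rfl | omega

lemma jumpL {m b : ℕ} (h1 : m.testBit (b + 2) = true) (h2 : m.testBit (b + 1) = true)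
    (h3 : m.testBit b = false) :
    Jump (-1) (b : ℤ) (pos m) (pos (m ^^^ (7 <<< b))) := by
  have e0 : (b : ℤ) = ((b + 2 : ℕ) : ℤ) - 2 := by push_cast; ring
  have e1 : (b : ℤ) + -1 = ((b + 1 : ℕ) : ℤ) - 2 := by push_cast; ring
  have e2 : (b : ℤ) + 2 * -1 = (b : ℤ) - 2 := by ring
  refine ⟨?_, ?_, ?_, ?_⟩
  · rw [e0, pos_at, h1]
  · rw [e1, pos_at, h2]
  · rw [e2, pos_at, h3]
  · funext c
    rw [flip_eq m b (u := true) (v := false) (w := false) (by simp [h3]) (by simp [h2])
      (by simp [h1])]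
    have e3 : (b : ℤ) + -1 = b - 1 := by ring
    rw [e2, e3]
    unfold Function.update
    simp only [eq_rec_constant]
    split_ifs <;> first | rfl | omega

lemma jumpR_inv {m : ℕ} {p : ℤ} {y : ℤ → Bool} (h : Jump 1 p (pos m) y) :
    ∃ a : ℕ, p = (a : ℤ) - 2 ∧ m.testBit a = true ∧ m.testBit (a + 1) = true ∧
      m.testBit (a + 2) = false ∧ y = pos (m ^^^ (7 <<< a)) := by
  obtain ⟨h1, h2, h3, h4⟩ := h
  obtain ⟨a, rfl⟩ := pos_true h1
  rw [pos_at] at h1
  have e1 : (a : ℤ) - 2 + 1 = ((a + 1 : ℕ) : ℤ) - 2 := by push_cast; ring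
  have e2 : (a : ℤ) - 2 + 2 * 1 = ((a + 2 : ℕ) : ℤ) - 2 := by push_cast; ring
  have h2' := h2
  have h3' := h3
  rw [e1, pos_at] at h2'
  rw [e2, pos_at] at h3'
  refine ⟨a, rfl, h1, h2', h3', ?_⟩
  rw [h4]
  exact (jumpR h1 h2' h3').2.2.2.symm

lemma jumpL_inv {m : ℕ} {p : ℤ} {y : ℤ → Bool} (h : Jump (-1) p (pos m) y) :
    ∃ a : ℕ, p = (a : ℤ) - 1 ∧ m.testBit (a + 1) = true ∧ m.testBit a = true ∧
      ∀ b, a = b + 1 → m.testBit b = false ∧ y = pos (m ^^^ (7 <<< b)) := by
  obtain ⟨h1, h2, h3, h4⟩ := h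
  obtain ⟨a, ha⟩ := pos_true h2
  have hp : p = (a : ℤ) - 1 := by omega
  subst hp
  have e0 : (a : ℤ) - 1 = ((a + 1 : ℕ) : ℤ) - 2 := by push_cast; ring
  rw [ha, pos_at] at h2
  refine ⟨a, rfl, by rw [← pos_at, ← e0, h1], h2, fun b hb => ?_⟩
  subst hb
  have e2 : ((b + 1 : ℕ) : ℤ) - 1 + 2 * -1 = (b : ℤ) - 2 := by push_cast; ring
  have h3' := h3
  rw [e2, pos_at] at h3'
  have h1' : m.testBit (b + 2) = true := by rw [← pos_at, ← h1]; congr 1; push_cast; ring
  refine ⟨h3', ?_⟩
  rw [h4]
  have h5 := (jumpL h1' h2 h3').2.2.2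
  have e3 : ((b + 1 : ℕ) : ℤ) - 1 = b := by push_cast; ring
  rw [e3]
  exact h5.symm

lemma chainR_sound : ∀ {fuel m a y : ℕ}, y ∈ chainR fuel m a →
    Jumps 1 ((a : ℤ) - 2) (pos m) (pos y) := by
  intro fuel
  induction fuel with
  | zero => intro m a y h; simp [chainR] at h
  | succ fuel ih =>
    intro m a y h
    rw [chainR] at h
    rcases hc : (m.testBit a && m.testBit (a + 1) && !(m.testBit (a + 2))) with _ | _
    · rw [hc] at h; simp at h
    · rw [hc, cond_true, List.mem_cons] at h
      simp only [Bool.and_eq_true, Bool.not_eq_true'] at hc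
      obtain ⟨⟨h1, h2⟩, h3⟩ := hc
      rcases h with h | h
      · rw [h]; exact .one _ _ _ (jumpR h1 h2 h3)
      · refine .more _ _ _ _ (jumpR h1 h2 h3) ?_
        have := ih h
        have e : (a : ℤ) - 2 + 2 * 1 = ((a + 2 : ℕ) : ℤ) - 2 := by push_cast; ring
        rw [e]
        exact this

lemma chainL_sound : ∀ {fuel m a y : ℕ}, y ∈ chainL fuel m a →
    Jumps (-1) ((a : ℤ) - 2) (pos m) (pos y) := by
  intro fuel
  induction fuel with
  | zero => intro m a y h; simp [chainL] at h
  | succ fuel ih =>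
    intro m a y h
    rw [chainL] at h
    rcases hc : (Nat.ble 2 a && m.testBit a && m.testBit (a - 1) && !(m.testBit (a - 2)))
      with _ | _
    · rw [hc] at h; simp at h
    · rw [hc, cond_true, List.mem_cons] at h
      simp only [Bool.and_eq_true, Bool.not_eq_true', Nat.ble_eq] at hc
      obtain ⟨⟨⟨h0, h1⟩, h2⟩, h3⟩ := hc
      obtain ⟨b, rfl⟩ : ∃ b, a = b + 2 := ⟨a - 2, by omega⟩
      have e1 : b + 2 - 1 = b + 1 := rfl
      have e2 : b + 2 - 2 = b := rfl
      rw [e1] at h2
      rw [e2] at h3 h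
      have e3 : ((b + 2 : ℕ) : ℤ) - 2 = b := by push_cast; ring
      rw [e3]
      rcases h with h | h
      · rw [h]; exact .one _ _ _ (jumpL h1 h2 h3)
      · refine .more _ _ _ _ (jumpL h1 h2 h3) ?_
        have := ih h
        have e : (b : ℤ) + 2 * -1 = (b : ℤ) - 2 := by ring
        rw [e]
        exact this

lemma moves_sound {par m y : ℕ} (h : y ∈ moves par m) : ∃ (a : ℕ) (d : ℤ), a % 2 = par ∧
    (d = 1 ∨ d = -1) ∧ Jumps d ((a : ℤ) - 2) (pos m) (pos y) := by
  unfold moves at h
  rw [List.mem_flatMap] at h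
  obtain ⟨a, -, h⟩ := h
  rcases hp : Nat.beq (a % 2) par with _ | _
  · rw [hp] at h; simp at h
  · rw [hp, cond_true, List.mem_append] at h
    rw [Nat.beq_eq] at hp
    rcases h with h | h
    · exact ⟨a, 1, hp, Or.inl rfl, chainR_sound h⟩
    · exact ⟨a, -1, hp, Or.inr rfl, chainL_sound h⟩

lemma checkR_sound {P : ℕ → Bool} : ∀ {fuel m a : ℕ}, checkR P fuel m a = true → ∀ {y},
    Jumps 1 ((a : ℤ) - 2) (pos m) y → ∃ m', y = pos m' ∧ P m' = true := by
  intro fuel
  induction fuel with
  | zero => intro m a h; simp [checkR] at h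
  | succ fuel ih =>
    intro m a h y hy
    rw [checkR] at h
    have key : ∀ z, Jump 1 ((a : ℤ) - 2) (pos m) z → z = pos (m ^^^ (7 <<< a)) ∧
        P (m ^^^ (7 <<< a)) = true ∧ checkR P fuel (m ^^^ (7 <<< a)) (a + 2) = true := by
      intro z hz
      obtain ⟨a', ha', h1, h2, h3, h4⟩ := jumpR_inv hz
      have : a' = a := by omega
      subst this
      rw [h1, h2, h3] at h
      simp only [Bool.and_self, Bool.not_false, cond_true, Bool.and_eq_true] at h
      exact ⟨h4, h.1, h.2⟩
    cases hy with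
    | one _ _ _ hj => exact ⟨_, (key _ hj).1, (key _ hj).2.1⟩
    | more _ _ z _ hj hjs =>
      obtain ⟨k1, k2, k3⟩ := key _ hj
      rw [k1] at hjs
      have e : (a : ℤ) - 2 + 2 * 1 = ((a + 2 : ℕ) : ℤ) - 2 := by push_cast; ring
      rw [e] at hjs
      exact ih k3 hjs

lemma checkL_sound {P : ℕ → Bool} : ∀ {fuel m a : ℕ}, checkL P fuel m a = true → ∀ {y},
    Jumps (-1) ((a : ℤ) - 2) (pos m) y → ∃ m', y = pos m' ∧ P m' = true := by
  intro fuel
  induction fuel with
  | zero => intro m a h; simp [checkL] at h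
  | succ fuel ih =>
    intro m a h y hy
    rw [checkL] at h
    have key : ∀ z, Jump (-1) ((a : ℤ) - 2) (pos m) z → ∃ b, a = b + 2 ∧
        z = pos (m ^^^ (7 <<< b)) ∧
        P (m ^^^ (7 <<< b)) = true ∧ checkL P fuel (m ^^^ (7 <<< b)) b = true := by
      intro z hz
      obtain ⟨a', ha', h1, h2, h3⟩ := jumpL_inv hz
      have : a = a' + 1 := by omega
      subst this
      rcases a' with _ | b
      · exfalso
        have h5 : Nat.ble 2 (0 + 1) = false := rfl
        rw [h5, cond_false] at h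
        simp [h2] at h
      · obtain ⟨h4, h5⟩ := h3 b rfl
        refine ⟨b, rfl, h5, ?_⟩
        have h6 : Nat.ble 2 (b + 1 + 1) = true := by rw [Nat.ble_eq]; omega
        have e1 : b + 1 + 1 - 1 = b + 1 := rfl
        have e2 : b + 1 + 1 - 2 = b := rfl
        rw [h6, cond_true, e1, e2, h1, h2, h4] at h
        simp only [Bool.and_self, Bool.not_false, cond_true, Bool.and_eq_true] at h
        exact h
    cases hy with
    | one _ _ _ hj =>
      obtain ⟨b, hb, k1, k2, k3⟩ := key _ hj
      exact ⟨_, k1, k2⟩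
    | more _ _ z _ hj hjs =>
      obtain ⟨b, hb, k1, k2, k3⟩ := key _ hj
      subst hb
      rw [k1] at hjs
      have e : ((b + 2 : ℕ) : ℤ) - 2 + 2 * -1 = (b : ℤ) - 2 := by push_cast; ring
      rw [e] at hjs
      exact ih k3 hjs

lemma checkMoves_sound {P : ℕ → Bool} {par m : ℕ} (h : checkMoves P par m = true) {p d : ℤ}
    (hd : d = 1 ∨ d = -1) (hp : ∀ a : ℕ, p = (a : ℤ) - 2 → a % 2 = par) {y : ℤ → Bool}
    (hy : Jumps d p (pos m) y) : ∃ m', y = pos m' ∧ P m' = true := by
  unfold checkMoves at h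
  rw [Bool.and_eq_true, Nat.ble_eq, List.all_eq_true] at h
  obtain ⟨hm, h⟩ := h
  have hpt : pos m p = true := by
    cases hy with
    | one _ _ _ hj => exact hj.1
    | more _ _ _ _ hj _ => exact hj.1
  obtain ⟨a, ha⟩ := pos_true hpt
  subst ha
  rw [pos_at] at hpt
  have ha : a < 20 := by
    by_contra hcon
    push Not at hcon
    have : m.testBit a = false := Nat.testBit_lt_two_pow (lt_of_lt_of_le (b := 2 ^ 20)
      (by omega) (Nat.pow_le_pow_right (by norm_num) hcon))
    rw [this] at hpt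
    exact absurd hpt (by decide)
  have h1 := h a (List.mem_range.2 ha)
  have h2 : Nat.beq (a % 2) par = true := by rw [Nat.beq_eq]; exact hp a rfl
  rw [hpt, h2, Bool.and_self, cond_true, Bool.and_eq_true] at h1
  rcases hd with rfl | rfl
  · exact checkR_sound h1.1 hy
  · exact checkL_sound h1.2 hy

/-- The difference. -/
abbrev Diff : Ruleset := konane.add (konane.add konane).neg

/-- The position of the difference with given codes. -/
abbrev dpos (m1 m2 m3 : ℕ) : Diff.Pos := (pos m1, (pos m2, pos m3))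

lemma even_iff (a : ℕ) : Even ((a : ℤ) - 2) ↔ a % 2 = 0 := by
  rw [Int.even_iff]; omega

lemma odd_iff (a : ℕ) : Odd ((a : ℤ) - 2) ↔ a % 2 = 1 := by
  rw [Int.odd_iff]; omega

lemma good_mem {r m1 m2 m3 : ℕ} (h : good r m1 m2 m3 = true) : ∃ w ∈ W, w % 1048576 = m1 ∧
    (w / 1048576) % 1048576 = m2 ∧ (w / 1099511627776) % 1048576 = m3 ∧
    w / 1152921504606846976 < r := by
  unfold good at h
  rw [List.any_eq_true] at h
  obtain ⟨w, hw, h⟩ := h
  simp only [Bool.and_eq_true, Nat.beq_eq, Nat.ble_eq] at h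
  exact ⟨w, hw, h.1.1.1, h.1.1.2, h.1.2, h.2⟩

lemma reply_sound {r m1 m2 m3 : ℕ} (h : reply r m1 m2 m3 = true) : ∃ w ∈ W,
    w / 1152921504606846976 < r ∧ Diff.move false (dpos m1 m2 m3)
      (dpos (w % 1048576) ((w / 1048576) % 1048576) ((w / 1099511627776) % 1048576)) := by
  unfold reply at h
  rw [Bool.or_eq_true, Bool.or_eq_true, List.any_eq_true, List.any_eq_true,
    List.any_eq_true] at h
  rcases h with (⟨y, hy, h⟩ | ⟨y, hy, h⟩) | ⟨y, hy, h⟩ <;>
    obtain ⟨w, hw, e1, e2, e3, hr⟩ := good_mem h <;>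
    obtain ⟨a, d, ha, hd, hj⟩ := moves_sound hy <;>
    refine ⟨w, hw, hr, ?_⟩ <;> rw [e1, e2, e3]
  · exact Or.inl ⟨⟨_, d, (odd_iff a).2 ha, hd, hj⟩, rfl⟩
  · exact Or.inr ⟨rfl, Or.inl ⟨⟨_, d, (even_iff a).2 ha, hd, hj⟩, rfl⟩⟩
  · exact Or.inr ⟨rfl, Or.inr ⟨rfl, ⟨_, d, (even_iff a).2 ha, hd, hj⟩⟩⟩

/-- Left, to move at a state of the list, loses. -/
theorem loses_W : ∀ (r w : ℕ), w ∈ W → w / 1152921504606846976 = r → Loses Diff true
    (dpos (w % 1048576) ((w / 1048576) % 1048576) ((w / 1099511627776) % 1048576)) := by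
  intro r
  induction r using Nat.strong_induction_on with
  | _ r ih =>
    intro w hw hr
    have hc := List.all_eq_true.1 check_W w hw
    rw [hr] at hc
    unfold checkState at hc
    rw [Bool.and_eq_true, Bool.and_eq_true] at hc
    obtain ⟨⟨h1, h2⟩, h3⟩ := hc
    have key : ∀ m1 m2 m3, reply r m1 m2 m3 = true → ∃ z, Diff.move false (dpos m1 m2 m3) z ∧
        Loses Diff true z := by
      intro m1 m2 m3 h
      obtain ⟨w', hw', hr', hm⟩ := reply_sound h
      exact ⟨_, hm, ih _ hr' w' hw' rfl⟩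
    refine loses_of fun y hy => ?_
    obtain ⟨y1, y2, y3⟩ := y
    rcases hy with ⟨⟨p, d, hp, hd, hj⟩, he⟩ | ⟨he, ⟨⟨p, d, hp, hd, hj⟩, he'⟩ | ⟨he', ⟨p, d, hp, hd, hj⟩⟩⟩
    · obtain ⟨m', e, hP⟩ := checkMoves_sound h1 hd
        (fun a ha => (even_iff a).1 (ha ▸ hp)) hj
      dsimp only at e he
      rw [e, ← he]
      exact key _ _ _ hP
    · obtain ⟨m', e, hP⟩ := checkMoves_sound h2 hd
        (fun a ha => (odd_iff a).1 (ha ▸ hp)) hj
      dsimp only at e he he'
      rw [e, ← he, ← he']
      exact key _ _ _ hP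
    · obtain ⟨m', e, hP⟩ := checkMoves_sound h3 hd
        (fun a ha => (odd_iff a).1 (ha ▸ hp)) hj
      dsimp only at e he he'
      rw [e, ← he, ← he']
      exact key _ _ _ hP

/-! ### The starting position -/

lemma pos_eq {f : ℤ → Bool} {m : ℕ} (hm : m < 2 ^ 20) (h1 : ∀ a < 20, f ((a : ℕ) - 2 : ℤ) =
    m.testBit a) (h2 : ∀ c : ℤ, c < -2 ∨ 18 ≤ c → f c = false) : f = pos m := by
  funext c
  by_cases hc : c < -2 ∨ 18 ≤ c
  · rw [h2 c hc]
    unfold pos
    rcases hc with hc | hc
    · have : ¬ (0 ≤ c + 2) := by omega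
      simp [this]
    · have : m.testBit (c + 2).toNat = false := Nat.testBit_lt_two_pow
        (lt_of_lt_of_le hm (Nat.pow_le_pow_right (by norm_num) (by omega)))
      simp [this]
  · obtain ⟨a, rfl⟩ : ∃ a : ℕ, c = (a : ℤ) - 2 := ⟨(c + 2).toNat, by omega⟩
    rw [pos_at]
    exact h1 a (by omega)

lemma first_eq : firstRuns 3 4 = pos 1976 := by
  refine pos_eq (by norm_num) (by decide) fun c hc => ?_
  unfold firstRuns
  rw [decide_eq_false_iff_not]
  push_cast
  omega

lemma third_eq : thirdRun 3 4 6 = pos 516096 := by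
  refine pos_eq (by norm_num) (by decide) fun c hc => ?_
  unfold thirdRun
  rw [decide_eq_false_iff_not]
  push_cast
  omega

lemma whole_eq : wholePosition 3 4 6 = pos 518072 := by
  refine pos_eq (by norm_num) (by decide) fun c hc => ?_
  unfold wholePosition firstRuns thirdRun
  rw [Bool.or_eq_false_iff, decide_eq_false_iff_not, decide_eq_false_iff_not]
  push_cast
  omega

lemma not_decomposes : ¬ Decomposes 3 4 6 := by
  rintro ⟨-, h⟩
  rw [whole_eq, first_eq, third_eq] at h
  have hg : good 100 518072 1976 495616 = true := by decide +kernel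
  obtain ⟨w, hw, e1, e2, e3, -⟩ := good_mem hg
  have hl := loses_W _ w hw rfl
  rw [e1, e2, e3] at hl
  have hmem : 495616 ∈ moves 0 516096 := by decide +kernel
  obtain ⟨a, d, ha, hd, hj⟩ := moves_sound hmem
  exact not_loses h (dpos 518072 1976 495616)
    (Or.inr ⟨rfl, Or.inr ⟨rfl, ⟨_, d, (even_iff a).2 ha, hd, hj⟩⟩⟩) hl

/-- There are `k, m, n ≥ 3`, not of the form `(2j, 2j, 2k')` with `j` odd, such that `S(k, m·, n)`
does not decompose. -/
theorem result : ∃ k m n : ℕ, 3 ≤ k ∧ 3 ≤ m ∧ 3 ≤ n ∧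
    (¬ ∃ j k' : ℕ, Odd j ∧ k = 2 * j ∧ m = 2 * j ∧ n = 2 * k') ∧ ¬ Decomposes k m n := by
  refine ⟨3, 4, 6, le_refl _, by norm_num, by norm_num, ?_, not_decomposes⟩
  rintro ⟨j, k', -, h, -⟩
  omega

end Pool.Agent.Results.MP_914aa3_co.ThreeFourSix
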